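import Pool.Agent.H14.ES.Stm2

/-!
Part GRP2 of the crew ES (`MP_9214e0_lc`).
-/

set_option autoImplicit false

namespace H94.ES

open H14.ES MeasureTheory Set
open scoped ENNReal commutatorElement

theorem tQ_pow (k : ℕ) (m : ℕ) (i y : ℤ) : (tQ ^ k) (m, i, y) = (m, i + k, y) := by
  induction k generalizing i with
  | zero => simp
  | succ k ih =>
    rw [pow_succ, Equiv.Perm.mul_apply]
    have h : tQ (m, i, y) = (m, i + 1, y) := rfl
    rw [h, ih]
    simp only [Prod.mk.injEq, true_and, and_true]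
    push_cast
    ring

theorem tQ_pow_inv (k : ℕ) (m : ℕ) (i y : ℤ) : ((tQ ^ k)⁻¹) (m, i, y) = (m, i - k, y) := by
  rw [Equiv.Perm.inv_eq_iff_eq, tQ_pow]
  simp

theorem aQ_apply (x : ℕ → Bool) (q : JJ) : aQ x q = aF x q := rfl

theorem aQ_inv (x : ℕ → Bool) : (aQ x)⁻¹ = aQ x := by
  ext q : 1
  rw [Equiv.Perm.inv_eq_iff_eq, aQ_apply, aQ_apply, aF_aF]

theorem piJJ_wd (x : ℕ → Bool) (n : ℕ) :
    piJJ x (wd n) = aQ x * (tQ ^ (n + 1) * aQ x * (tQ ^ (n + 1))⁻¹) * aQ x *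
      (tQ ^ (n + 1) * aQ x * (tQ ^ (n + 1))⁻¹) := by
  have h1 : piJJ x (FreeGroup.of true) = aQ x := by simp [piJJ]
  have h2 : piJJ x (FreeGroup.of false) = tQ := by simp [piJJ]
  rw [wd, commutatorElement_def]
  simp only [map_mul, map_inv, map_pow, h1, h2, mul_inv_rev, aQ_inv, inv_inv, mul_assoc]

theorem piJJ_wd_apply (x : ℕ → Bool) (n m : ℕ) (i y : ℤ) :
    piJJ x (wd n) (m, i, y) =
      (m, i, y + if m = n ∧ i = (n : ℤ) + 1 ∧ x n = true then 2 else 0) := by
  rw [piJJ_wd]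
  have hB : ∀ (m : ℕ) (i y : ℤ), (tQ ^ (n + 1) * aQ x * (tQ ^ (n + 1))⁻¹) (m, i, y) =
      (m, i, (aF x (m, i - (n + 1), y)).2.2) := by
    intro m i y
    rw [Equiv.Perm.mul_apply, Equiv.Perm.mul_apply, tQ_pow_inv, aQ_apply]
    have h : aF x (m, i - ((n + 1 : ℕ) : ℤ), y) =
        (m, i - ((n + 1 : ℕ) : ℤ), (aF x (m, i - ((n + 1 : ℕ) : ℤ), y)).2.2) := rfl
    rw [h, tQ_pow]
    simp
  have hA : ∀ (m : ℕ) (i y : ℤ), aQ x (m, i, y) = (m, i, (aF x (m, i, y)).2.2) := fun _ _ _ => rfl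
  rw [Equiv.Perm.mul_apply, Equiv.Perm.mul_apply, Equiv.Perm.mul_apply, hB, hA, hB, hA]
  simp only [Prod.mk.injEq, true_and, aF]
  by_cases hx : x m = true
  · by_cases hmn : m = n
    · subst hmn
      simp only [hx, and_true, true_and]
      split_ifs <;> omega
    · simp only [hx, and_true, hmn, false_and, if_false, add_zero]
      split_ifs <;> omega
  · have hx' : ¬ (m = n ∧ i = (n : ℤ) + 1 ∧ x n = true) := by
      rintro ⟨h1, -, h3⟩
      exact hx (h1 ▸ h3)
    have hx2 : x m = false := by simpa using hx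
    simp only [hx2, Bool.false_eq_true, and_false, if_false, hx', add_zero]
    split_ifs <;> omega

theorem t_GRP2 : S_GRP2 := by
  refine ⟨?_, ?_, ?_, ?_⟩
  · rintro h ⟨u, j⟩ hh
    have h1 : (h * u, j) = (u, j) := hh
    simpa using (Prod.ext_iff.mp h1).1
  · intro x h k
    ext ⟨u, j⟩ : 1
    rfl
  · rintro x ⟨u, m, i, y⟩ n hn hh
    have h2 : piJJ x (FreeGroup.of false) = tQ := by simp [piJJ]
    have h3 : ∀ k : ℕ, ∀ q : JJ, ((pi1 x (FreeGroup.of false)) ^ k) (u, q) = (u, (tQ ^ k) q) := by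
      intro k
      induction k with
      | zero => intro q; rfl
      | succ k ih =>
        intro q
        rw [pow_succ, pow_succ, Equiv.Perm.mul_apply, Equiv.Perm.mul_apply, ← ih]
        exact congrArg (fun z => (pi1 x (FreeGroup.of false) ^ k) (u, z))
          (congrArg (fun z : Equiv.Perm JJ => z q) h2)
    rw [h3, tQ_pow] at hh
    simp only [Prod.mk.injEq, true_and, and_true] at hh
    omega
  · intro x n u m i y
    change (u, piJJ x (wd n) (m, i, y)) = _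
    rw [piJJ_wd_apply]

end H94.ES
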