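import Pool.Agent.H94.ES.LAW

/-!
Part DEL of the crew ES (`MP_9214e0_lc`).
-/

set_option autoImplicit false

namespace H94.ES

open H14.ES MeasureTheory Set Filter
open scoped ENNReal Topology

theorem col_mp (D : Type) [Countable D] (d : D) :
    (mu (D × ℕ)).map (fun ω (n : ℕ) => ω (d, n)) = mu ℕ := by
  have h1 : (fun (ω : D × ℕ → Bool) (n : ℕ) => ω (d, n)) =
      (fun g : D → ℕ → Bool => g d) ∘ (fun ω (d : D) (n : ℕ) => ω (d, n)) := rfl
  rw [h1, ← Measure.map_map (measurable_pi_apply d) (by fun_prop), curry_map]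
  exact Measure.infinitePi_map_eval (fun _ : D => mu ℕ) d

theorem nu_site (hS : S_SIT) (D : Type) [Countable D] (m : ℕ) (d : D) :
    nu D m {q | q.1 d ≠ q.2 d} ≤ (2⁻¹ : ℝ≥0∞) ^ m := by
  have hmeas : Measurable (fun ω : D × ℕ → Bool => (lay 0 ω, rs m 0 ω)) :=
    (measurable_lay 0).prodMk (measurable_rs m 0)
  have hset : MeasurableSet {q : (D → Bool) × (D → Bool) | q.1 d ≠ q.2 d} := by
    have h1 : Measurable (fun q : (D → Bool) × (D → Bool) => (q.1 d, q.2 d)) :=
      ((measurable_pi_apply d).comp measurable_fst).prodMk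
        ((measurable_pi_apply d).comp measurable_snd)
    exact h1 (Set.to_countable {a : Bool × Bool | a.1 ≠ a.2}).measurableSet
  rw [nu, Measure.map_apply hmeas hset]
  have h2 : ((fun ω : D × ℕ → Bool => (lay 0 ω, rs m 0 ω)) ⁻¹'
      {q : (D → Bool) × (D → Bool) | q.1 d ≠ q.2 d}) =
      (fun (ω : D × ℕ → Bool) (n : ℕ) => ω (d, n)) ⁻¹'
        ((fun u => R 0 (lab m u) (u 0, u 1)) ⁻¹' {a | a.1 ≠ a.2}) := rfl
  have hm3 : MeasurableSet ((fun u : ℕ → Bool => R 0 (lab m u) (u 0, u 1)) ⁻¹' {a | a.1 ≠ a.2}) :=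
    measurable_site m (R 0) (Set.to_countable _).measurableSet
  rw [h2, ← Measure.map_apply (by fun_prop) hm3, col_mp,
    ← Measure.map_apply (measurable_site m (R 0)) (Set.to_countable _).measurableSet]
  have h4 : {a : Bool × Bool | a.1 ≠ a.2} = {(true, false)} ∪ {(false, true)} := by
    ext ⟨x, y⟩
    cases x <;> cases y <;> simp
  rw [h4, measure_union (by simp) (measurableSet_singleton _), law_site hS, law_site hS,
    cnt_R m 0 (by positivity), cnt_R m 0 (by positivity)]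
  simp only [reduceCtorEq, if_false, mul_zero, add_zero, mul_one, ENNReal.inv_pow]
  rw [← two_mul, pow_add, show (2⁻¹ : ℝ≥0∞) ^ 2 = 2⁻¹ * 2⁻¹ by ring, ← mul_assoc, mul_comm 2,
    mul_assoc, ← mul_assoc 2, ENNReal.mul_inv_cancel (by simp) (by simp), one_mul]
  exact mul_le_of_le_one_right' (by simp [ENNReal.inv_le_one])

theorem t_DEL (hAPX : S_APX) (hSIT : S_SIT) : S_DEL := by
  intro D _ Λ _ _ _ g hg ε hε
  by_cases hεt : ε = ⊤
  · exact ⟨0, fun m _ => by rw [hεt]; exact le_top⟩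
  have : Encodable Λ := Encodable.ofCountable Λ
  set e : (D → Bool) → ℕ := fun x => Encodable.encode (g x) with he
  have hem : Measurable e := (measurable_of_countable Encodable.encode).comp hg
  have hinj : ∀ x y, e x = e y → g x = g y := fun x y h => Encodable.encode_injective h
  have hε4 : ε / 4 ≠ 0 := by
    simp [ENNReal.div_eq_zero_iff, hε]
  have hε4t : ε / 4 ≠ ⊤ := ENNReal.div_ne_top hεt (by norm_num)
  -- tail
  have htail : Tendsto (fun n : ℕ => mu D {x | n ≤ e x}) atTop (𝓝 0) := by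
    have h := tendsto_measure_iInter_atTop (μ := mu D) (s := fun n : ℕ => {x | n ≤ e x})
      (fun n => (measurableSet_le measurable_const hem).nullMeasurableSet)
      (fun a b hab x hx => le_trans hab hx) ⟨0, measure_ne_top _ _⟩
    have h2 : (⋂ n : ℕ, {x : D → Bool | n ≤ e x}) = ∅ := by
      ext x
      simp only [mem_iInter, mem_empty_iff_false, iff_false, not_forall]
      exact ⟨e x + 1, by simp⟩
    rw [h2, measure_empty] at h
    exact h
  obtain ⟨N, hN⟩ := (htail.eventually_le_const (pos_iff_ne_zero.mpr hε4)).exists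
  -- approximation
  set η : ℝ≥0∞ := (ε / 4) / (2 * (N + 1)) with hη
  have hη0 : η ≠ 0 := by
    intro h
    rcases ENNReal.div_eq_zero_iff.mp h with h | h
    · exact hε4 h
    · exact ENNReal.mul_ne_top (by norm_num) (by simp) h
  have hA : ∀ k : ℕ, MeasurableSet {x | e x = k} := fun k => hem (measurableSet_singleton k)
  choose F C hC hF hAC using fun k : ℕ => hAPX D {x | e x = k} (hA k) η hη0
  set T : ℕ := ∑ k ∈ Finset.range N, (F k).card with hT
  have hpow : Tendsto (fun m : ℕ => (2⁻¹ : ℝ≥0∞) ^ m) atTop (𝓝 0) :=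
    ENNReal.tendsto_pow_atTop_nhds_zero_of_lt_one (by simp [ENNReal.inv_lt_one])
  have hT0 : (ε / 4) / (T + 1) ≠ 0 := by
    intro h
    rcases ENNReal.div_eq_zero_iff.mp h with h | h
    · exact hε4 h
    · exact absurd h (by simp)
  obtain ⟨m0, hm0⟩ := eventually_atTop.mp (hpow.eventually_le_const (pos_iff_ne_zero.mpr hT0))
  refine ⟨m0, fun m hm => ?_⟩
  obtain ⟨-, -, -, -, hfst, hsnd⟩ := t_LAW hSIT D m
  have h1 : ∀ S : Set (D → Bool), MeasurableSet S → nu D m {q | q.1 ∈ S} = mu D S := by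
    intro S hS
    rw [← hfst, Measure.map_apply measurable_fst hS]
    rfl
  have h2 : ∀ S : Set (D → Bool), MeasurableSet S → nu D m {q | q.2 ∈ S} = mu D S := by
    intro S hS
    rw [← hsnd, Measure.map_apply measurable_snd hS]
    rfl
  have hsub : {q : (D → Bool) × (D → Bool) | g q.1 ≠ g q.2} ⊆
      {q | q.1 ∈ {x | N ≤ e x}} ∪ ⋃ k ∈ Finset.range N,
        ({q | q.1 ∈ symmDiff {x | e x = k} (C k)} ∪ {q | q.2 ∈ symmDiff {x | e x = k} (C k)} ∪
          ⋃ d ∈ F k, {q | q.1 d ≠ q.2 d}) := by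
    intro q hq
    by_cases hN' : N ≤ e q.1
    · exact Or.inl hN'
    right
    refine mem_iUnion₂.mpr ⟨e q.1, Finset.mem_range.mpr (not_le.mp hN'), ?_⟩
    have hne : e q.2 ≠ e q.1 := fun h => hq (hinj _ _ h.symm)
    by_cases hc1 : q.1 ∈ C (e q.1)
    · by_cases hc2 : q.2 ∈ C (e q.1)
      · left; right
        exact Or.inr ⟨hc2, hne⟩
      · right
        by_contra hcon
        simp only [mem_iUnion, not_exists] at hcon
        exact hc2 ((hF (e q.1) q.1 q.2 (fun i hi => not_not.mp (hcon i hi))).mp hc1)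
    · left; left
      exact Or.inl ⟨rfl, hc1⟩
  have hsd : ∀ k, MeasurableSet (symmDiff {x | e x = k} (C k)) := fun k => (hA k).symmDiff (hC k)
  have hk : ∀ k ∈ Finset.range N, nu D m
      ({q | q.1 ∈ symmDiff {x | e x = k} (C k)} ∪ {q | q.2 ∈ symmDiff {x | e x = k} (C k)} ∪
          ⋃ d ∈ F k, {q | q.1 d ≠ q.2 d}) ≤ 2 * η + (F k).card * (2⁻¹ : ℝ≥0∞) ^ m := by
    intro k _
    refine (measure_union_le _ _).trans (add_le_add ?_ ?_)
    · refine (measure_union_le _ _).trans ?_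
      rw [h1 _ (hsd k), h2 _ (hsd k), two_mul]
      exact add_le_add (hAC k) (hAC k)
    · refine (measure_biUnion_finset_le _ _).trans ?_
      refine (Finset.sum_le_sum fun d _ => nu_site hSIT D m d).trans ?_
      rw [Finset.sum_const, nsmul_eq_mul]
  have hlast : (T : ℝ≥0∞) * (2⁻¹ : ℝ≥0∞) ^ m ≤ ε / 4 := by
    calc (T : ℝ≥0∞) * (2⁻¹ : ℝ≥0∞) ^ m ≤ (T + 1) * ((ε / 4) / (T + 1)) :=
          mul_le_mul' le_self_add (hm0 m hm)
      _ = ε / 4 := ENNReal.mul_div_cancel (by simp) (by simp)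
  have hmid : (N : ℝ≥0∞) * (2 * η) ≤ ε / 4 := by
    calc (N : ℝ≥0∞) * (2 * η) = (2 * N) * η := by ring
      _ ≤ (2 * (N + 1)) * η := by gcongr; exact le_self_add
      _ = ε / 4 := ENNReal.mul_div_cancel (by simp) (ENNReal.mul_ne_top (by norm_num) (by simp))
  calc nu D m {q | g q.1 ≠ g q.2}
      ≤ nu D m {q | q.1 ∈ {x | N ≤ e x}} + ∑ k ∈ Finset.range N,
          (2 * η + (F k).card * (2⁻¹ : ℝ≥0∞) ^ m) := by
        refine (measure_mono hsub).trans ((measure_union_le _ _).trans ?_)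
        gcongr
        exact (measure_biUnion_finset_le _ _).trans (Finset.sum_le_sum hk)
    _ ≤ ε / 4 + (N * (2 * η) + T * (2⁻¹ : ℝ≥0∞) ^ m) := by
        rw [h1 _ (measurableSet_le measurable_const hem), Finset.sum_add_distrib, Finset.sum_const,
          Finset.card_range, nsmul_eq_mul, ← Finset.sum_mul, hT]
        push_cast
        gcongr
    _ ≤ ε / 4 + (ε / 4 + ε / 4) := by gcongr
    _ ≤ ε := by
        have h4 : ε / 4 + (ε / 4 + ε / 4) ≤ 4 * (ε / 4) := by
          calc ε / 4 + (ε / 4 + ε / 4) = 3 * (ε / 4) := by ring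
            _ ≤ 4 * (ε / 4) := by gcongr; norm_num
        refine h4.trans ?_
        rw [ENNReal.mul_div_cancel (by norm_num) (by norm_num)]

end H94.ES
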