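import Pool.Agent.H94.ES.PSH

/-!
Part LAW of the crew ES (`MP_9214e0_lc`).
-/

set_option autoImplicit false

namespace H94.ES

open H14.ES MeasureTheory Set
open scoped ENNReal

theorem lab_lt (m : ℕ) (u : ℕ → Bool) : lab m u < 2 ^ m := by
  induction m with
  | zero => simp [lab]
  | succ m ih =>
    have h : lab (m + 1) u = lab m u + (if u (m + 2) then 2 ^ m else 0) := by
      simp [lab, Finset.sum_range_succ]
    rw [h, pow_succ]
    split_ifs <;> omega

theorem measurable_lab (m : ℕ) : Measurable (lab m) := by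
  unfold lab
  refine Finset.measurable_sum _ fun j _ => ?_
  have h : Measurable (fun u : ℕ → Bool => u (j + 2)) := measurable_pi_apply (j + 2)
  exact Measurable.ite (h (measurableSet_singleton true)) measurable_const measurable_const

/-- the number of (label, pair) which give `a` -/
noncomputable def cnt (m : ℕ) (F : ℕ → Bool × Bool → Bool × Bool) (a : Bool × Bool) : ℝ≥0∞ :=
  ∑ i ∈ Finset.range (2 ^ m), ∑ q : Bool × Bool, if F i q = a then 1 else 0

theorem measurable_site (m : ℕ) (F : ℕ → Bool × Bool → Bool × Bool) :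
    Measurable (fun u : ℕ → Bool => F (lab m u) (u 0, u 1)) := by
  have h1 : Measurable (fun u : ℕ → Bool => (lab m u, (u 0, u 1))) :=
    (measurable_lab m).prodMk ((measurable_pi_apply 0).prodMk (measurable_pi_apply 1))
  exact (measurable_of_countable (fun p : ℕ × (Bool × Bool) => F p.1 p.2)).comp h1

theorem law_site (hS : S_SIT) (m : ℕ) (F : ℕ → Bool × Bool → Bool × Bool) (a : Bool × Bool) :
    (mu ℕ).map (fun u => F (lab m u) (u 0, u 1)) {a} =
      ((2 : ℝ≥0∞) ^ (m + 2))⁻¹ * cnt m F a := by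
  rw [Measure.map_apply (measurable_site m F) (measurableSet_singleton a)]
  set S : Finset (ℕ × (Bool × Bool)) := Finset.range (2 ^ m) ×ˢ Finset.univ with hSdef
  set A : ℕ × (Bool × Bool) → Set (ℕ → Bool) :=
    fun p => {u | lab m u = p.1 ∧ u 0 = p.2.1 ∧ u 1 = p.2.2} with hA
  have hmA : ∀ p, MeasurableSet (A p) := by
    intro p
    have h1 : Measurable (fun u : ℕ → Bool => (lab m u, (u 0, u 1))) :=
      (measurable_lab m).prodMk ((measurable_pi_apply 0).prodMk (measurable_pi_apply 1))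
    have : A p = (fun u : ℕ → Bool => (lab m u, (u 0, u 1))) ⁻¹' {p} := by
      ext u
      simp only [hA, Set.mem_ofPred_eq, mem_preimage, mem_singleton_iff, Prod.ext_iff]
    rw [this]
    exact h1 (measurableSet_singleton p)
  have hunion : (fun u : ℕ → Bool => F (lab m u) (u 0, u 1)) ⁻¹' {a} =
      ⋃ p ∈ S.filter (fun p => F p.1 p.2 = a), A p := by
    ext u
    simp only [mem_preimage, mem_singleton_iff, mem_iUnion, Finset.mem_filter, exists_prop, hSdef,
      Finset.mem_product, Finset.mem_range, Finset.mem_univ, and_true, hA, Set.mem_ofPred_eq]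
    constructor
    · intro h
      exact ⟨(lab m u, (u 0, u 1)), ⟨lab_lt m u, h⟩, rfl, rfl, rfl⟩
    · rintro ⟨⟨i, x, y⟩, ⟨_, h⟩, h1, h2, h3⟩
      simp only at h h1 h2 h3
      rw [h1, h2, h3]
      exact h
  rw [hunion, measure_biUnion_finset]
  · have h1 : ∀ p ∈ S.filter (fun p => F p.1 p.2 = a), mu ℕ (A p) = ((2 : ℝ≥0∞) ^ (m + 2))⁻¹ := by
      rintro ⟨i, x, y⟩ hp
      simp only [hSdef, Finset.mem_filter, Finset.mem_product, Finset.mem_range] at hp
      exact hS m i hp.1.1 x y
    rw [Finset.sum_congr rfl h1, cnt, ← Finset.sum_product', Finset.sum_filter,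
      Finset.mul_sum]
    refine Finset.sum_congr rfl fun p _ => ?_
    split_ifs <;> simp
  · rintro p _ q _ hpq
    refine Set.disjoint_left.mpr ?_
    rintro u ⟨h1, h2, h3⟩ ⟨h4, h5, h6⟩
    exact hpq (Prod.ext (h1.symm.trans h4) (Prod.ext (h2.symm.trans h5) (h3.symm.trans h6)))
  · exact fun p _ => hmA p

/-- labels: one special label -/
theorem cnt_one (m j : ℕ) (hj : j < 2 ^ m) (F : ℕ → Bool × Bool → Bool × Bool)
    (h0 : ∀ a, (∑ q : Bool × Bool, if F j q = a then (1 : ℝ≥0∞) else 0) = 1)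
    (h1 : ∀ i, i ≠ j → ∀ a, (∑ q : Bool × Bool, if F i q = a then (1 : ℝ≥0∞) else 0) =
      if a.1 = a.2 then 2 else 0) (a : Bool × Bool) :
    cnt m F a = 1 + ((2 ^ m - 1 : ℕ) : ℝ≥0∞) * (if a.1 = a.2 then 2 else 0) := by
  rw [cnt, ← Finset.add_sum_erase _ _ (Finset.mem_range.mpr hj), h0 a]
  congr 1
  rw [Finset.sum_congr rfl (fun i hi => h1 i (Finset.ne_of_mem_erase hi) a), Finset.sum_const,
    Finset.card_erase_of_mem (Finset.mem_range.mpr hj), Finset.card_range, nsmul_eq_mul]

theorem sum_all (a : Bool × Bool) :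
    (∑ q : Bool × Bool, if q = a then (1 : ℝ≥0∞) else 0) = 1 := by
  simp

theorem sum_swap (a : Bool × Bool) :
    (∑ q : Bool × Bool, if (q.2, q.1) = a then (1 : ℝ≥0∞) else 0) = 1 := by
  rcases a with ⟨x, y⟩
  rw [Fintype.sum_prod_type]
  simp only [Fintype.sum_bool]
  cases x <;> cases y <;> simp

theorem sum_fst (a : Bool × Bool) :
    (∑ q : Bool × Bool, if (q.1, q.1) = a then (1 : ℝ≥0∞) else 0) = if a.1 = a.2 then 2 else 0 := by
  rcases a with ⟨x, y⟩
  rw [Fintype.sum_prod_type]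
  simp only [Fintype.sum_bool]
  cases x <;> cases y <;> simp <;> norm_num

theorem sum_snd (a : Bool × Bool) :
    (∑ q : Bool × Bool, if (q.2, q.2) = a then (1 : ℝ≥0∞) else 0) = if a.1 = a.2 then 2 else 0 := by
  rcases a with ⟨x, y⟩
  rw [Fintype.sum_prod_type]
  simp only [Fintype.sum_bool]
  cases x <;> cases y <;> simp <;> norm_num

theorem ext_law {ν ν' : Measure (Bool × Bool)} (h : ∀ a, ν {a} = ν' {a}) : ν = ν' :=
  Measure.ext_of_singleton h

/-- the one-site map of `(lay 0, rs m i)` -/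
def R (i : ℕ) (l : ℕ) (q : Bool × Bool) : Bool × Bool := (q.1, if l = i then q.2 else q.1)

/-- the one-site map of `(pt m j, pt m (j + 1))` -/
def P (j : ℕ) (l : ℕ) (q : Bool × Bool) : Bool × Bool :=
  (if l < j then q.2 else q.1, if l < j + 1 then q.2 else q.1)

/-- the one-site map of `(rs m 0, rs m 1)` -/
def Q (l : ℕ) (q : Bool × Bool) : Bool × Bool :=
  (if l = 0 then q.2 else q.1, if l = 1 then q.2 else q.1)

theorem cnt_R (m i : ℕ) (hi : i < 2 ^ m) (a : Bool × Bool) :
    cnt m (R i) a = 1 + ((2 ^ m - 1 : ℕ) : ℝ≥0∞) * (if a.1 = a.2 then 2 else 0) := by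
  refine cnt_one m i hi _ ?_ ?_ a
  · intro a
    simp [R]
  · intro l hl a
    simpa [R, hl] using sum_fst a

theorem cnt_P (m j : ℕ) (hj : j < 2 ^ m) (a : Bool × Bool) :
    cnt m (P j) a = 1 + ((2 ^ m - 1 : ℕ) : ℝ≥0∞) * (if a.1 = a.2 then 2 else 0) := by
  refine cnt_one m j hj _ ?_ ?_ a
  · intro a
    simp [P]
  · intro l hl a
    rcases lt_or_gt_of_ne hl with h | h
    · have h' : l < j + 1 := by omega
      simpa [P, h, h'] using sum_snd a
    · have h1 : ¬ l < j := by omega
      have h2 : ¬ l < j + 1 := by omega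
      simpa [P, h1, h2] using sum_fst a

theorem cnt_Q (m : ℕ) (a : Bool × Bool) :
    cnt (m + 1) Q a = 2 * (1 + ((2 ^ m - 1 : ℕ) : ℝ≥0∞) * (if a.1 = a.2 then 2 else 0)) := by
  have h0 : 0 ∈ Finset.range (2 ^ (m + 1)) := Finset.mem_range.mpr (by positivity)
  have h1 : 1 ∈ (Finset.range (2 ^ (m + 1))).erase 0 := by
    refine Finset.mem_erase.mpr ⟨one_ne_zero, Finset.mem_range.mpr ?_⟩
    have : 0 < 2 ^ m := by positivity
    rw [pow_succ]; omega
  rw [cnt, ← Finset.add_sum_erase _ _ h0, ← Finset.add_sum_erase _ _ h1]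
  have e0 : (∑ q : Bool × Bool, if Q 0 q = a then (1 : ℝ≥0∞) else 0) = 1 := by
    simpa [Q] using sum_swap a
  have e1 : (∑ q : Bool × Bool, if Q 1 q = a then (1 : ℝ≥0∞) else 0) = 1 := by
    simp [Q]
  have e2 : ∀ i ∈ ((Finset.range (2 ^ (m + 1))).erase 0).erase 1,
      (∑ q : Bool × Bool, if Q i q = a then (1 : ℝ≥0∞) else 0) = if a.1 = a.2 then 2 else 0 := by
    intro i hi
    have hi1 : i ≠ 1 := Finset.ne_of_mem_erase hi
    have hi0 : i ≠ 0 := Finset.ne_of_mem_erase (Finset.mem_of_mem_erase hi)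
    simpa [Q, hi0, hi1] using sum_fst a
  rw [e0, e1, Finset.sum_congr rfl e2, Finset.sum_const, Finset.card_erase_of_mem h1,
    Finset.card_erase_of_mem h0, Finset.card_range, nsmul_eq_mul]
  have h3 : 2 ^ (m + 1) - 1 - 1 = 2 * (2 ^ m - 1) := by
    rw [pow_succ]; omega
  rw [h3]
  push_cast
  ring

/-- the law of the resampled pair at one site -/
theorem law_R (hS : S_SIT) (m i : ℕ) (hi : i < 2 ^ m) :
    (mu ℕ).map (fun u => R i (lab m u) (u 0, u 1)) =
      (mu ℕ).map (fun u => R 0 (lab m u) (u 0, u 1)) := by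
  refine ext_law fun a => ?_
  rw [law_site hS, law_site hS, cnt_R m i hi, cnt_R m 0 (by positivity)]

theorem law_P (hS : S_SIT) (m j : ℕ) (hj : j < 2 ^ m) :
    (mu ℕ).map (fun u => P j (lab m u) (u 0, u 1)) =
      (mu ℕ).map (fun u => R 0 (lab m u) (u 0, u 1)) := by
  refine ext_law fun a => ?_
  rw [law_site hS, law_site hS, cnt_P m j hj, cnt_R m 0 (by positivity)]

theorem law_Q (hS : S_SIT) (m : ℕ) :
    (mu ℕ).map (fun u => Q (lab (m + 1) u) (u 0, u 1)) =
      (mu ℕ).map (fun u => R 0 (lab m u) (u 0, u 1)) := by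
  refine ext_law fun a => ?_
  rw [law_site hS, law_site hS, cnt_Q m, cnt_R m 0 (by positivity), ← mul_assoc]
  congr 1
  rw [show m + 1 + 2 = (m + 2) + 1 from rfl, pow_succ, ENNReal.mul_inv (by simp) (by simp),
    mul_assoc, ENNReal.inv_mul_cancel (by simp) (by simp), mul_one]

/-- the shift preserves the coins -/
theorem sh_mp {I : Type} (p : Equiv.Perm I) : MeasurePreserving (sh p) (mu I) (mu I) := by
  refine ⟨?_, ?_⟩
  · exact measurable_pi_lambda _ fun i => measurable_pi_apply _
  · have h := Measure.infinitePi_map_piCongrLeft (X := fun _ : I => Bool) (fun _ => coin) p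
    have h2 : (MeasurableEquiv.piCongrLeft (fun _ : I => Bool) p : (I → Bool) → (I → Bool)) =
        sh p := by
      funext ω i
      rw [MeasurableEquiv.coe_piCongrLeft]
      have := Equiv.piCongrLeft_apply_apply (P := fun _ : I => Bool) p ω (p⁻¹ i)
      simpa [sh] using this
    rw [h2] at h
    exact h

theorem measurable_sitewise {D : Type} (τ : (ℕ → Bool) → Bool) (hτ : Measurable τ) :
    Measurable (fun ω : D × ℕ → Bool => fun d => τ fun n => ω (d, n)) := by
  refine measurable_pi_lambda _ fun d => ?_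
  exact hτ.comp (measurable_pi_lambda _ fun n => measurable_pi_apply _)

theorem nu_eq (D : Type) [Countable D] (m : ℕ) :
    nu D m = (mu (D × ℕ)).map (fun ω =>
      ((fun d => (R 0 (lab m fun n => ω (d, n)) (ω (d, 0), ω (d, 1))).1 : D → Bool),
      (fun d => (R 0 (lab m fun n => ω (d, n)) (ω (d, 0), ω (d, 1))).2 : D → Bool))) := rfl

theorem measurable_rs {D : Type} (m i : ℕ) :
    Measurable (fun ω : D × ℕ → Bool => rs m i ω) := by
  have h := measurable_sitewise (D := D) (fun u => (R i (lab m u) (u 0, u 1)).2)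
    (measurable_snd.comp (measurable_site m (R i)))
  exact h

theorem measurable_lay {D : Type} (n : ℕ) :
    Measurable (fun ω : D × ℕ → Bool => lay n ω) :=
  measurable_pi_lambda _ fun d => measurable_pi_apply _

theorem site_law (D : Type) [Countable D] (σ : (ℕ → Bool) → Bool) (hσ : Measurable σ)
    (h : (mu ℕ).map σ = coin) :
    (mu (D × ℕ)).map (fun ω => (fun d => σ fun n => ω (d, n) : D → Bool)) = mu D := by
  have h1 : (fun ω : D × ℕ → Bool => (fun d => σ fun n => ω (d, n) : D → Bool)) =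
      (fun (g : D → ℕ → Bool) (d : D) => σ (g d)) ∘ (fun ω (d : D) (n : ℕ) => ω (d, n)) := rfl
  rw [h1, ← Measure.map_map ?_ ?_, curry_map,
    Measure.infinitePi_map_pi (fun _ : D => mu ℕ) (f := fun _ => σ) (fun _ => hσ)]
  · have h2 : (fun _ : D => (mu ℕ).map σ) = fun _ : D => coin := by rw [h]
    change Measure.infinitePi (fun _ : D => (mu ℕ).map σ) = Measure.infinitePi (fun _ : D => coin)
    rw [h2]
  · exact measurable_pi_lambda _ fun d => hσ.comp (measurable_pi_apply d)
  · fun_prop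

theorem coin_singleton (b : Bool) : coin {b} = 2⁻¹ := by
  cases b <;> simp [coin]

theorem law_R_snd (hS : S_SIT) (m : ℕ) :
    (mu ℕ).map (fun u => (R 0 (lab m u) (u 0, u 1)).2) = coin := by
  refine Measure.ext_of_singleton fun b => ?_
  have h1 : (fun u : ℕ → Bool => (R 0 (lab m u) (u 0, u 1)).2) =
      Prod.snd ∘ (fun u : ℕ → Bool => R 0 (lab m u) (u 0, u 1)) := rfl
  rw [coin_singleton, h1, ← Measure.map_map measurable_snd (measurable_site m (R 0)),
    Measure.map_apply measurable_snd (measurableSet_singleton b)]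
  have h2 : (Prod.snd ⁻¹' {b} : Set (Bool × Bool)) = {(true, b)} ∪ {(false, b)} := by
    ext ⟨x, y⟩
    cases x <;> simp
  rw [h2, measure_union (by simp) (measurableSet_singleton _), law_site hS, law_site hS,
    cnt_R m 0 (by positivity), cnt_R m 0 (by positivity), ← mul_add]
  have h3 : (1 + ((2 ^ m - 1 : ℕ) : ℝ≥0∞) * (if ((true, b) : Bool × Bool).1 = (true, b).2 then 2
      else 0)) + (1 + ((2 ^ m - 1 : ℕ) : ℝ≥0∞) * (if ((false, b) : Bool × Bool).1 = (false, b).2
      then 2 else 0)) = 2 * 2 ^ m := by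
    have h4 : (2 : ℝ≥0∞) + ((2 ^ m - 1 : ℕ) : ℝ≥0∞) * 2 = 2 * 2 ^ m := by
      have h5 : 2 + (2 ^ m - 1) * 2 = 2 * 2 ^ m := by
        have : 0 < 2 ^ m := by positivity
        omega
      exact_mod_cast congrArg (Nat.cast : ℕ → ℝ≥0∞) h5
    cases b <;> simp only [if_true, reduceCtorEq, if_false, mul_zero, add_zero] <;>
      rw [← h4] <;> ring_nf
  rw [h3, show (2 : ℝ≥0∞) ^ (m + 2) = (2 * 2 ^ m) * 2 by ring,
    ENNReal.mul_inv (Or.inr (by simp)) (Or.inr (by simp)), mul_right_comm,
    ENNReal.inv_mul_cancel (by simp) (by simp [ENNReal.mul_eq_top]), one_mul]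

theorem t_LAW (hSIT : S_SIT) : S_LAW := by
  intro D _ m
  have e0 : nu D m = (Measure.infinitePi (fun _ : D => (mu ℕ).map
      (fun u => R 0 (lab m u) (u 0, u 1)))).map
      (fun g => ((fun d => (g d).1 : D → Bool), (fun d => (g d).2 : D → Bool))) := by
    rw [nu_eq]
    exact site_map D (fun u => R 0 (lab m u) (u 0, u 1)) (measurable_site m (R 0))
  refine ⟨?_, ?_, ?_, ?_, ?_, ?_⟩
  · intro j hj
    rw [e0, ← law_P hSIT m j hj]
    exact site_map D (fun u => P j (lab m u) (u 0, u 1)) (measurable_site m (P j))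
  · intro hm
    have h1 : 1 < 2 ^ m := Nat.one_lt_two_pow (by omega)
    rw [e0, ← law_R hSIT m 1 h1]
    exact site_map D (fun u => R 1 (lab m u) (u 0, u 1)) (measurable_site m (R 1))
  · rw [e0, ← law_Q hSIT m]
    exact site_map D (fun u => Q (lab (m + 1) u) (u 0, u 1)) (measurable_site (m + 1) Q)
  · intro p
    have h1 : nu D m = (mu (D × ℕ)).map (fun ω => (lay 0 ω, rs m 0 ω)) := rfl
    have hmeas : Measurable (fun ω : D × ℕ → Bool => (lay 0 ω, rs m 0 ω)) :=
      (measurable_lay 0).prodMk (measurable_rs m 0)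
    have h2 : ((fun q : (D → Bool) × (D → Bool) => (sh p q.1, sh p q.2)) ∘
        (fun ω : D × ℕ → Bool => (lay 0 ω, rs m 0 ω))) =
        (fun ω : D × ℕ → Bool => (lay 0 ω, rs m 0 ω)) ∘ (sh (lift p)) := by
      funext ω
      rfl
    have h3 : Measurable (fun q : (D → Bool) × (D → Bool) => (sh p q.1, sh p q.2)) :=
      ((sh_mp p).measurable.comp measurable_fst).prodMk ((sh_mp p).measurable.comp measurable_snd)
    rw [h1, Measure.map_map h3 hmeas, h2, ← Measure.map_map hmeas (sh_mp (lift p)).measurable,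
      (sh_mp (lift p)).map_eq]
  · have h1 : nu D m = (mu (D × ℕ)).map (fun ω => (lay 0 ω, rs m 0 ω)) := rfl
    rw [h1, Measure.map_map measurable_fst ((measurable_lay 0).prodMk (measurable_rs m 0))]
    refine site_law D (fun u => u 0) (measurable_pi_apply 0) ?_
    exact Measure.infinitePi_map_eval (fun _ : ℕ => coin) 0
  · have h1 : nu D m = (mu (D × ℕ)).map (fun ω => (lay 0 ω, rs m 0 ω)) := rfl
    rw [h1, Measure.map_map measurable_snd ((measurable_lay 0).prodMk (measurable_rs m 0))]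
    exact site_law D (fun u => (R 0 (lab m u) (u 0, u 1)).2)
      (measurable_snd.comp (measurable_site m (R 0))) (law_R_snd hSIT m)

end H94.ES
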