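import Pool.Agent.H14.ES.Stm

/-!
Part PSH of the crew ES (`MP_9214e0_lc`).
-/

set_option autoImplicit false

namespace H94.ES

open H14.ES MeasureTheory Set
open scoped ENNReal

theorem curry_map (D : Type) [Countable D] :
    (mu (D × ℕ)).map (fun ω => fun (d : D) (n : ℕ) => ω (d, n)) =
      Measure.infinitePi (fun _ : D => mu ℕ) := by
  exact Measure.infinitePi_map_curry (ι := D) (κ := ℕ) (X := Bool) (fun _ _ => coin)

/-- the law of the pairs of configurations obtained sitewise -/
theorem site_map (D : Type) [Countable D] (τ : (ℕ → Bool) → Bool × Bool) (hτ : Measurable τ) :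
    (mu (D × ℕ)).map (fun ω => ((fun d => (τ fun n => ω (d, n)).1 : D → Bool),
      (fun d => (τ fun n => ω (d, n)).2 : D → Bool))) =
    (Measure.infinitePi (fun _ : D => (mu ℕ).map τ)).map
      (fun g => ((fun d => (g d).1 : D → Bool), (fun d => (g d).2 : D → Bool))) := by
  rw [← Measure.infinitePi_map_pi (fun _ : D => mu ℕ) (f := fun _ => τ) (fun _ => hτ),
    ← curry_map, Measure.map_map, Measure.map_map]
  · rfl
  · fun_prop
  · fun_prop
  · fun_prop
  · fun_prop

theorem t_PSH : S_PSH := by
  intro D _ τ τ' hτ hτ' h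
  rw [site_map D τ hτ, site_map D τ' hτ', h]

end H94.ES
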